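import Mathlib

open Set

namespace DS55

/-- A well ordered type of order type omega one: uncountable with countable initial segments. -/
class OmegaOneLike (W : Type) [LinearOrder W] [WellFoundedLT W] : Prop where
  cIio : ∀ w : W, (Set.Iio w).Countable
  unc : ¬ (Set.univ : Set W).Countable

section order

variable {W : Type} [LinearOrder W] [WellFoundedLT W] [OmegaOneLike W]

theorem cIic (w : W) : (Set.Iic w).Countable := by
  have : (Set.Iic w) = insert w (Set.Iio w) := by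
    ext v; simp [le_iff_eq_or_lt]
  rw [this]
  exact (OmegaOneLike.cIio w).insert w

theorem bdd_of_countable {s : Set W} (hs : s.Countable) : ∃ w : W, ∀ x ∈ s, x < w := by
  by_contra hcon
  push Not at hcon
  apply OmegaOneLike.unc (W := W)
  have : (Set.univ : Set W) ⊆ ⋃ x ∈ s, Set.Iic x := by
    intro w _
    obtain ⟨x, hx, hwx⟩ := hcon w
    simp only [Set.mem_iUnion]
    exact ⟨x, hx, hwx⟩
  exact (hs.biUnion (fun x _ => cIic x)).mono this

theorem unb_of_not_countable {s : Set W} (hs : ¬ s.Countable) (w : W) : ∃ x ∈ s, w < x := by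
  by_contra hcon
  push Not at hcon
  exact hs ((cIic w).mono (fun x hx => hcon x hx))

/-- Closed unbounded subsets. -/
def IsClubW (C : Set W) : Prop :=
  (∀ β, ∃ α ∈ C, β < α) ∧
    ∀ α, (∃ β, β < α) → (∀ β < α, ∃ γ ∈ C, β < γ ∧ γ < α) → α ∈ C

/-- The diamond principle on `W`. -/
def DiamondW (W : Type) [LinearOrder W] : Prop :=
  ∃ A : W → Set W, ∀ S C : Set W, IsClubW C → ∃ α ∈ C, A α ∩ Set.Iio α = S ∩ Set.Iio α

theorem closure_club (h : W → W) (β₀ : W) :
    IsClubW {l : W | β₀ < l ∧ ∀ ξ < l, h ξ < l} := by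
  classical
  constructor
  · intro β
    -- one step: a strict upper bound of everything below
    have step : ∀ γ : W, ∃ δ : W, γ < δ ∧ ∀ ξ ≤ γ, h ξ < δ := by
      intro γ
      have hc : (insert γ (h '' Set.Iic γ)).Countable := ((cIic γ).image h).insert γ
      obtain ⟨δ, hδ⟩ := bdd_of_countable hc
      refine ⟨δ, hδ γ (Set.mem_insert _ _), fun ξ hξ => hδ _ (Set.mem_insert_of_mem _ ⟨ξ, hξ, rfl⟩)⟩
    choose f hf1 hf2 using step
    let b : ℕ → W := fun n => Nat.rec (max β β₀) (fun _ c => f c) n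
    have hb0 : b 0 = max β β₀ := rfl
    have hbs : ∀ n, b (n+1) = f (b n) := fun n => rfl
    obtain ⟨u, hu⟩ := bdd_of_countable (Set.countable_range b)
    let T : Set W := {w | ∀ n, b n < w}
    have hT : T.Nonempty := ⟨u, fun n => hu _ ⟨n, rfl⟩⟩
    let l := (wellFounded_lt (α := W)).min T hT
    have hl : ∀ n, b n < l := (wellFounded_lt (α := W)).min_mem T hT
    have hmin : ∀ w, w < l → ∃ n, w ≤ b n := by
      intro w hw
      by_contra hcon
      push Not at hcon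
      exact (wellFounded_lt (α := W)).not_lt_min T (x := w) hcon hw
    refine ⟨l, ⟨lt_of_le_of_lt (le_max_right β β₀) (hl 0), ?_⟩, lt_of_le_of_lt (le_max_left β β₀) (hl 0)⟩
    intro ξ hξ
    obtain ⟨n, hn⟩ := hmin ξ hξ
    exact lt_trans (hf2 (b n) ξ hn) (by rw [← hbs]; exact hl (n+1))
  · intro α hα1 hα
    constructor
    · obtain ⟨β, hβ⟩ := hα1
      obtain ⟨γ, hγ, _, h2⟩ := hα β hβ
      exact lt_trans hγ.1 h2
    · intro ξ hξ
      obtain ⟨γ, hγ, h1, h2⟩ := hα ξ hξ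
      exact lt_trans (hγ.2 ξ h1) h2

theorem exists_guess_fun {Q : Type} [Nonempty Q] (inj : W × Q ↪ W) (hd : DiamondW W) :
    ∃ B : W → W → Q, ∀ f : W → Q, ∀ C : Set W, IsClubW C → (∀ h : W → W, ∀ β₀ : W,
      IsClubW (C ∩ {l : W | β₀ < l ∧ ∀ ξ < l, h ξ < l})) → ∃ l ∈ C, ∀ ξ < l, B l ξ = f ξ := by
  classical
  obtain ⟨A, hA⟩ := hd
  let q₀ : Q := Classical.arbitrary Q
  let B : W → W → Q := fun l ξ =>
    if h : ∃ q : Q, inj (ξ, q) ∈ A l ∩ Set.Iio l then Classical.choose h else q₀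
  refine ⟨B, fun f C hC hC2 => ?_⟩
  have hne : Nonempty W := by
    by_contra hcon
    rw [not_nonempty_iff] at hcon
    exact OmegaOneLike.unc (W := W) (Set.countable_univ)
  let β₀ : W := Classical.arbitrary W
  obtain ⟨l, hl, hl2⟩ := hA (Set.range (fun ξ => inj (ξ, f ξ))) _ (hC2 (fun ξ => inj (ξ, f ξ)) β₀)
  refine ⟨l, hl.1, fun ξ hξ => ?_⟩
  have h1 : inj (ξ, f ξ) ∈ A l ∩ Set.Iio l := by
    rw [hl2]
    exact ⟨⟨ξ, rfl⟩, hl.2.2 ξ hξ⟩
  have hex : ∃ q : Q, inj (ξ, q) ∈ A l ∩ Set.Iio l := ⟨_, h1⟩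
  have h2 : B l ξ = Classical.choose hex := by simp only [B]; rw [dif_pos hex]
  have h3 := Classical.choose_spec hex
  rw [← h2] at h3
  generalize B l ξ = q at h3
  rw [hl2] at h3
  obtain ⟨ξ', hξ'⟩ := h3.1
  have h4 := inj.injective hξ'
  have h5 : ξ' = ξ := congrArg Prod.fst h4
  have h6 : f ξ' = q := congrArg Prod.snd h4
  rw [← h6, h5]

/-- A version with closure clubs only. -/
theorem exists_guess_fun' {Q : Type} [Nonempty Q] (inj : W × Q ↪ W) (hd : DiamondW W) :
    ∃ B : W → W → Q, ∀ f : W → Q, ∀ h : W → W, ∀ β₀ : W,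
      ∃ l : W, β₀ < l ∧ (∀ ξ < l, h ξ < l) ∧ ∀ ξ < l, B l ξ = f ξ := by
  obtain ⟨B, hB⟩ := exists_guess_fun inj hd
  refine ⟨B, fun f h β₀ => ?_⟩
  obtain ⟨l, hl, hl2⟩ := hB f _ (closure_club h β₀) (by
    intro h' β'
    have : ({l : W | β₀ < l ∧ ∀ ξ < l, h ξ < l} ∩ {l : W | β' < l ∧ ∀ ξ < l, h' ξ < l}) =
        {l : W | max β₀ β' < l ∧ ∀ ξ < l, (fun ξ => max (h ξ) (h' ξ)) ξ < l} := by
      ext l
      simp only [Set.mem_inter_iff, Set.mem_ofPred_eq, max_lt_iff]
      constructor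
      · rintro ⟨⟨a, b⟩, c, d⟩
        exact ⟨⟨a, c⟩, fun ξ hξ => ⟨b ξ hξ, d ξ hξ⟩⟩
      · rintro ⟨⟨a, c⟩, b⟩
        exact ⟨⟨a, fun ξ hξ => (b ξ hξ).1⟩, c, fun ξ hξ => (b ξ hξ).2⟩
    rw [this]
    exact closure_club _ _)
  exact ⟨l, hl.1, hl.2, hl2⟩

theorem exists_guess_set {J : Type} (ι : J ↪ W) (hd : DiamondW W) :
    ∃ D : W → Set J, ∀ E : Set J, E.Countable → ∀ β : W, ∃ l, β < l ∧ D l = E := by
  classical
  obtain ⟨A, hA⟩ := hd
  refine ⟨fun l => {c | ι c ∈ A l ∩ Set.Iio l}, fun E hE β => ?_⟩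
  obtain ⟨u, hu⟩ := bdd_of_countable (hE.image ι)
  obtain ⟨l, hl, hl2⟩ := hA (ι '' E) _ (closure_club (fun ξ => ξ) (max β u))
  refine ⟨l, lt_of_le_of_lt (le_max_left _ _) hl.1, ?_⟩
  ext c
  simp only [Set.mem_ofPred_eq, hl2]
  constructor
  · rintro ⟨⟨c', hc', h⟩, _⟩
    rw [← ι.injective h]; exact hc'
  · intro hc
    exact ⟨⟨c, hc, rfl⟩, lt_trans (hu _ ⟨c, hc, rfl⟩) (lt_of_le_of_lt (le_max_right _ _) hl.1)⟩

end order

/-- Recursive choice along a well order. -/
theorem exists_rec {W : Type} [LinearOrder W] [WellFoundedLT W] {α : Type} [Nonempty α]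
    (P : W → (W → α) → α → Prop)
    (dep : ∀ l x x' y, (∀ m < l, x m = x' m) → P l x y → P l x' y)
    (ex : ∀ l x, (∀ m < l, P m x (x m)) → ∃ y, P l x y) : ∃ x : W → α, ∀ l, P l x (x l) := by
  classical
  let a₀ : α := Classical.arbitrary α
  let ext : (l : W) → ((m : W) → m < l → α) → (W → α) :=
    fun l f m => if h : m < l then f m h else a₀
  let step : (l : W) → ((m : W) → m < l → α) → α := fun l f =>
    if h : ∃ y, P l (ext l f) y then Classical.choose h else a₀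
  let x : W → α := (wellFounded_lt (α := W)).fix step
  have hx : ∀ l, x l = step l (fun m _ => x m) := fun l =>
    (wellFounded_lt (α := W)).fix_eq step l
  refine ⟨x, fun l => ?_⟩
  induction l using (wellFounded_lt (α := W)).induction with
  | _ l ih =>
    have hagree : ∀ m < l, ext l (fun m _ => x m) m = x m := by
      intro m hm
      simp only [ext]; rw [dif_pos hm]
    have hprev : ∀ m < l, P m (ext l (fun m _ => x m)) (ext l (fun m _ => x m) m) := by
      intro m hm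
      rw [hagree m hm]
      exact dep m x _ (x m) (fun k hk => (hagree k (lt_trans hk hm)).symm) (ih m hm)
    have hex := ex l _ hprev
    have h1 : x l = Classical.choose hex := by
      rw [hx l]; simp only [step]; rw [dif_pos hex]
    rw [h1]
    exact dep l _ x _ hagree (Classical.choose_spec hex)

end DS55
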