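import Pool.Agent.DS55.Basic

open Set

namespace DS55

variable {W : Type} [LinearOrder W] [WellFoundedLT W] [OmegaOneLike W]

/-- Conditions: a finite set of coordinates required to be true and one required to be false. -/
abbrev Cond (W : Type) : Type := Finset (W × ℕ) × Finset (W × ℕ)

def Sat (y : W × ℕ → Bool) (b : Cond W) : Prop :=
  (∀ c ∈ b.1, y c = true) ∧ (∀ c ∈ b.2, y c = false)

/-- The family `s` restricted to `ξ < μ` consists of conditions supported below `μ`, consistent and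
with pairwise disjoint supports. -/
def Valid (μ : W) (s : W → Cond W) : Prop :=
  (∀ ξ < μ, ∀ c ∈ (s ξ).1 ∪ (s ξ).2, c.1 < μ) ∧ (∀ ξ < μ, Disjoint (s ξ).1 (s ξ).2) ∧
    (∀ ξ < μ, ∀ η < μ, ξ ≠ η → Disjoint ((s ξ).1 ∪ (s ξ).2) ((s η).1 ∪ (s η).2))

/-- The family `(x c)` indexed by `c ∈ E` is locally finite at `y`. -/
def LocFin (x : W → ℕ → W × ℕ → Bool) (E : Set (W × ℕ)) (y : W × ℕ → Bool) : Prop :=
  ∃ b : Cond W, Sat y b ∧ {c | c ∈ E ∧ Sat (x c.1 c.2) b}.Finite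

def Good (μ : W) (s : W → Cond W) (x : W → ℕ → W × ℕ → Bool) (y : ℕ → W × ℕ → Bool) : Prop :=
  Valid μ s ∧ ∀ E : Set (W × ℕ), (∀ c ∈ E, c.1 < μ) → (∀ i, LocFin x E (y i)) →
    {ξ | ξ < μ ∧ ∀ c ∈ (s ξ).1, c ∉ E}.Infinite

def Pre (S : W → W → Cond W) (l : W) (x : W → ℕ → W × ℕ → Bool) (z : W × ℕ → Bool) : Prop :=
  (∀ c : W × ℕ, l ≤ c.1 → z c = true) ∧ (∀ μ < l, ∃ n, z (μ, n) = false) ∧
    (∀ μ < l, Good μ (S μ) x (x μ) → ∃ ξ < μ, Sat z (S μ ξ))

def Spec (S : W → W → Cond W) (D : W → Set (W × ℕ)) (l : W) (x : W → ℕ → W × ℕ → Bool)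
    (y : ℕ → W × ℕ → Bool) : Prop :=
  (∀ i, Pre S l x (y i)) ∧
  ((∃ y', (∀ i, Pre S l x (y' i)) ∧ Good l (S l) x y') → Good l (S l) x y) ∧
  ((∀ μ < l, ∀ i, LocFin x {c | c ∈ D l ∧ c.1 < l} (x μ i)) → ∀ c ∈ D l, c.1 < l → y 0 c = false)

omit [WellFoundedLT W] [OmegaOneLike W] in
theorem LocFin.congr {x x' : W → ℕ → W × ℕ → Bool} {E : Set (W × ℕ)} {l : W}
    (hE : ∀ c ∈ E, c.1 < l) (hx : ∀ m < l, x m = x' m) {y : W × ℕ → Bool} (h : LocFin x E y) :
    LocFin x' E y := by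
  obtain ⟨b, hb, hf⟩ := h
  refine ⟨b, hb, hf.subset ?_⟩
  rintro c ⟨hc, hs⟩
  refine ⟨hc, ?_⟩
  rw [hx c.1 (hE c hc)]
  exact hs

omit [WellFoundedLT W] [OmegaOneLike W] in
theorem Good.congr {μ : W} {s : W → Cond W} {x x' : W → ℕ → W × ℕ → Bool}
    {y : ℕ → W × ℕ → Bool} (hx : ∀ m < μ, x m = x' m) (h : Good μ s x y) : Good μ s x' y :=
  ⟨h.1, fun E hE hl => h.2 E hE (fun i => (hl i).congr hE (fun m hm => (hx m hm).symm))⟩

omit [WellFoundedLT W] [OmegaOneLike W] in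
theorem Pre.congr {S : W → W → Cond W} {l : W} {x x' : W → ℕ → W × ℕ → Bool}
    {z : W × ℕ → Bool} (hx : ∀ m < l, x m = x' m) (h : Pre S l x z) : Pre S l x' z := by
  refine ⟨h.1, h.2.1, fun μ hμ hg => h.2.2 μ hμ ?_⟩
  rw [hx μ hμ]
  exact hg.congr (fun m hm => (hx m (lt_trans hm hμ)).symm)

omit [WellFoundedLT W] [OmegaOneLike W] in
theorem Spec.congr {S : W → W → Cond W} {D : W → Set (W × ℕ)} {l : W}
    {x x' : W → ℕ → W × ℕ → Bool} {y : ℕ → W × ℕ → Bool} (hx : ∀ m < l, x m = x' m)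
    (h : Spec S D l x y) : Spec S D l x' y := by
  have hx' : ∀ m < l, x' m = x m := fun m hm => (hx m hm).symm
  refine ⟨fun i => (h.1 i).congr hx, ?_, ?_⟩
  · rintro ⟨y', h1, h2⟩
    exact (h.2.1 ⟨y', fun i => (h1 i).congr hx', h2.congr hx'⟩).congr hx
  · intro h3
    refine h.2.2 (fun μ hμ i => ?_)
    have := (h3 μ hμ i).congr (fun c hc => hc.2) hx'
    rw [hx μ hμ]
    exact this

/-- The poset of finite approximations to a row avoiding `E`. -/
abbrev QPos (l : W) (E : Set (W × ℕ)) : Type :=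
  {q : Cond W // Disjoint q.1 q.2 ∧ (∀ c ∈ q.1, c.1 < l ∧ c ∉ E) ∧ (∀ c ∈ q.2, c.1 < l)}

theorem exists_row (S : W → W → Cond W) (l : W) (x : W → ℕ → W × ℕ → Bool) (E : Set (W × ℕ))
    (hE : ∀ c ∈ E, c.1 < l) (hl : ∀ μ < l, ∀ i, LocFin x E (x μ i)) :
    ∃ z, Pre S l x z ∧ ∀ c ∈ E, z c = false := by
  classical
  -- the two families of cofinal sets
  let Z : (μ : Set.Iio l) → Order.Cofinal (QPos l E) := fun μ =>
    { carrier := {q | ∃ n, ((μ : W), n) ∈ q.1.2}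
      isCofinal := by
        intro q
        obtain ⟨n, hn⟩ : ∃ n, ((μ : W), n) ∉ q.1.1 := by
          by_contra hcon
          push Not at hcon
          have : Set.Infinite ((fun n : ℕ => ((μ : W), n)) '' Set.univ) :=
            Set.infinite_univ.image (fun a _ b _ h => congrArg Prod.snd h)
          exact this ((q.1.1.finite_toSet).subset (by rintro _ ⟨n, _, rfl⟩; exact hcon n))
        refine ⟨⟨(q.1.1, insert ((μ : W), n) q.1.2), ?_, q.2.2.1, ?_⟩, ⟨n, ?_⟩, ?_⟩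
        · rw [Finset.disjoint_insert_right]
          exact ⟨hn, q.2.1⟩
        · intro c hc
          rcases Finset.mem_insert.1 hc with h | h
          · rw [h]; exact μ.2
          · exact q.2.2.2 c h
        · exact Finset.mem_insert_self _ _
        · exact ⟨le_refl _, Finset.subset_insert _ _⟩ }
  let H : (μ : Set.Iio l) → Order.Cofinal (QPos l E) := fun μ =>
    { carrier := {q | Good (μ : W) (S μ) x (x μ) → ∃ ξ < (μ : W), (S μ ξ).1 ⊆ q.1.1 ∧ (S μ ξ).2 ⊆ q.1.2}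
      isCofinal := by
        intro q
        by_cases hg : Good (μ : W) (S μ) x (x μ)
        · -- infinitely many ξ with positive part off E
          let E' : Set (W × ℕ) := {c | c ∈ E ∧ c.1 < (μ : W)}
          have hinf := hg.2 E' (fun c hc => hc.2) (fun i => by
            obtain ⟨b, hb, hf⟩ := hl μ μ.2 i
            exact ⟨b, hb, hf.subset (fun c hc => ⟨hc.1.1, hc.2⟩)⟩)
          -- only finitely many have support meeting q
          have hfin : {ξ | ξ < (μ : W) ∧ ¬ Disjoint ((S μ ξ).1 ∪ (S μ ξ).2) (q.1.1 ∪ q.1.2)}.Finite := by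
            let pick : W → W × ℕ := fun ξ =>
              if h : ∃ c, c ∈ (S μ ξ).1 ∪ (S μ ξ).2 ∧ c ∈ q.1.1 ∪ q.1.2 then Classical.choose h
              else ((μ : W), 0)
            have hpick : ∀ ξ ∈ {ξ | ξ < (μ : W) ∧ ¬ Disjoint ((S μ ξ).1 ∪ (S μ ξ).2) (q.1.1 ∪ q.1.2)},
                pick ξ ∈ (S μ ξ).1 ∪ (S μ ξ).2 ∧ pick ξ ∈ q.1.1 ∪ q.1.2 := by
              intro ξ hξ
              have h : ∃ c, c ∈ (S μ ξ).1 ∪ (S μ ξ).2 ∧ c ∈ q.1.1 ∪ q.1.2 := by
                have := hξ.2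
                rw [Finset.not_disjoint_iff] at this
                exact this
              simp only [pick]
              rw [dif_pos h]
              exact Classical.choose_spec h
            refine Set.Finite.of_finite_image (f := pick)
              (((q.1.1 ∪ q.1.2).finite_toSet).subset ?_) ?_
            · rintro _ ⟨ξ, hξ, rfl⟩
              exact (hpick ξ hξ).2
            · intro ξ hξ η hη h
              by_contra hne
              have hd := hg.1.2.2 ξ hξ.1 η hη.1 hne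
              have h1 := (hpick ξ hξ).1
              have h2 := (hpick η hη).1
              rw [← h] at h2
              exact (Finset.disjoint_left.1 hd) h1 h2
          obtain ⟨ξ, hξ, hξ2⟩ := (hinf.sdiff hfin).nonempty
          have hdis : Disjoint ((S μ ξ).1 ∪ (S μ ξ).2) (q.1.1 ∪ q.1.2) := by
            by_contra hcon
            exact hξ2 ⟨hξ.1, hcon⟩
          rw [Finset.disjoint_union_left, Finset.disjoint_union_right, Finset.disjoint_union_right] at hdis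
          obtain ⟨⟨d11, d12⟩, d21, d22⟩ := hdis
          have hv1 := hg.1.1 ξ hξ.1
          refine ⟨⟨(q.1.1 ∪ (S μ ξ).1, q.1.2 ∪ (S μ ξ).2), ?_, ?_, ?_⟩, ?_, ?_⟩
          · simp only [Finset.disjoint_union_left, Finset.disjoint_union_right]
            exact ⟨⟨q.2.1, d12⟩, d21.symm, hg.1.2.1 ξ hξ.1⟩
          · intro c hc
            rcases Finset.mem_union.1 hc with h | h
            · exact q.2.2.1 c h
            · have h1 := hv1 c (Finset.mem_union_left _ h)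
              exact ⟨lt_trans h1 μ.2, fun hcE => hξ.2 c h ⟨hcE, h1⟩⟩
          · intro c hc
            rcases Finset.mem_union.1 hc with h | h
            · exact q.2.2.2 c h
            · exact lt_trans (hv1 c (Finset.mem_union_right _ h)) μ.2
          · intro _
            exact ⟨ξ, hξ.1, Finset.subset_union_right, Finset.subset_union_right⟩
          · exact ⟨Finset.subset_union_left, Finset.subset_union_left⟩
        · exact ⟨q, fun h => absurd h hg, le_refl _⟩ }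
  have : Countable (Set.Iio l) := (OmegaOneLike.cIio l).to_subtype
  have : Encodable (Set.Iio l ⊕ Set.Iio l) := Encodable.ofCountable _
  let 𝒟 : (Set.Iio l ⊕ Set.Iio l) → Order.Cofinal (QPos l E) := Sum.elim Z H
  let q₀ : QPos l E := ⟨(∅, ∅), Finset.disjoint_empty_left _, by simp, by simp⟩
  let J := Order.idealOfCofinals q₀ 𝒟
  have hJ : ∀ i, ∃ q : QPos l E, q ∈ 𝒟 i ∧ q ∈ J := fun i => Order.cofinal_meets_idealOfCofinals q₀ 𝒟 i
  let z : W × ℕ → Bool := fun c => decide (l ≤ c.1 ∨ ∃ q : QPos l E, q ∈ J ∧ c ∈ q.1.1)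
  have hz1 : ∀ q : QPos l E, q ∈ J → ∀ c ∈ q.1.1, z c = true := by
    intro q hq c hc
    simp only [z, decide_eq_true_eq]
    exact Or.inr ⟨q, hq, hc⟩
  have hz2 : ∀ q : QPos l E, q ∈ J → ∀ c ∈ q.1.2, z c = false := by
    intro q hq c hc
    simp only [z, decide_eq_false_iff_not]
    rintro (h | ⟨q', hq', hc'⟩)
    · exact absurd (q.2.2.2 c hc) (not_lt.2 h)
    · obtain ⟨r, hr, hr1, hr2⟩ := J.directed q hq q' hq'
      exact (Finset.disjoint_left.1 r.2.1) (hr2.1 hc') (hr1.2 hc)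
  refine ⟨z, ⟨?_, ?_, ?_⟩, ?_⟩
  · intro c hc
    simp only [z, decide_eq_true_eq]
    exact Or.inl hc
  · intro μ hμ
    obtain ⟨q, ⟨n, hn⟩, hq⟩ := hJ (Sum.inl ⟨μ, hμ⟩)
    exact ⟨n, hz2 q hq _ hn⟩
  · intro μ hμ hg
    obtain ⟨q, hq1, hq⟩ := hJ (Sum.inr ⟨μ, hμ⟩)
    obtain ⟨ξ, hξ, h1, h2⟩ := hq1 hg
    exact ⟨ξ, hξ, fun c hc => hz1 q hq c (h1 hc), fun c hc => hz2 q hq c (h2 hc)⟩
  · intro c hc
    simp only [z, decide_eq_false_iff_not]
    rintro (h | ⟨q', hq', hc'⟩)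
    · exact absurd (hE c hc) (not_lt.2 h)
    · exact (q'.2.2.1 c hc').2 hc

theorem exists_spec (S : W → W → Cond W) (D : W → Set (W × ℕ)) (l : W)
    (x : W → ℕ → W × ℕ → Bool) : ∃ y, Spec S D l x y := by
  classical
  -- the killer row
  obtain ⟨κ, hκ1, hκ2⟩ : ∃ κ, Pre S l x κ ∧
      ((∀ μ < l, ∀ i, LocFin x {c | c ∈ D l ∧ c.1 < l} (x μ i)) →
        ∀ c ∈ D l, c.1 < l → κ c = false) := by
    by_cases h : ∀ μ < l, ∀ i, LocFin x {c | c ∈ D l ∧ c.1 < l} (x μ i)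
    · obtain ⟨z, hz1, hz2⟩ := exists_row S l x {c | c ∈ D l ∧ c.1 < l} (fun c hc => hc.2) h
      exact ⟨z, hz1, fun _ c hc hc' => hz2 c ⟨hc, hc'⟩⟩
    · obtain ⟨z, hz1, _⟩ := exists_row S l x ∅ (by simp) (fun μ _ i =>
        ⟨(∅, ∅), ⟨by simp, by simp⟩, by simp⟩)
      exact ⟨z, hz1, fun h' => absurd h' h⟩
  by_cases hex : ∃ y', (∀ i, Pre S l x (y' i)) ∧ Good l (S l) x y'
  · obtain ⟨y', hy1, hy2⟩ := hex
    let y : ℕ → W × ℕ → Bool := fun n => Nat.casesOn n κ y'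
    refine ⟨y, ?_, ?_, ?_⟩
    · intro i
      cases i with
      | zero => exact hκ1
      | succ i => exact hy1 i
    · intro _
      exact ⟨hy2.1, fun E hE hl => hy2.2 E hE (fun i => hl (i+1))⟩
    · exact hκ2
  · exact ⟨fun _ => κ, fun _ => hκ1, fun h => absurd h hex, hκ2⟩

theorem exists_space (S : W → W → Cond W) (D : W → Set (W × ℕ)) :
    ∃ x : W → ℕ → W × ℕ → Bool, ∀ l, Spec S D l x (x l) :=
  exists_rec (P := fun l x y => Spec S D l x y) (fun _ _ _ _ hx h => h.congr hx)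
    (fun l x _ => exists_spec S D l x)

end DS55
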