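import Pool.Agent.DS55.Basic

open Set

namespace DS55

theorem exists_fiber {α β : Type*} [Countable β] (f : α → β) {A : Set α} (hA : ¬ A.Countable) :
    ∃ v, ¬ {a | a ∈ A ∧ f a = v}.Countable := by
  by_contra hcon
  push Not at hcon
  apply hA
  have : A ⊆ ⋃ v, {a | a ∈ A ∧ f a = v} := by
    intro a ha
    exact Set.mem_iUnion.2 ⟨f a, ha, rfl⟩
  exact (Set.countable_iUnion hcon).mono this

theorem delta_aux {ι α : Type*} [DecidableEq α] (F : ι → Finset α) (n : ℕ) :
    ∀ (R : Finset α) (A : Set ι), ¬ A.Countable → (∀ i ∈ A, R ⊆ F i ∧ (F i \ R).card = n) →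
    ∃ R' : Finset α, ∃ B ⊆ A, ¬ B.Countable ∧ (∀ i ∈ B, R' ⊆ F i) ∧
      B.Pairwise (fun i j => Disjoint (F i \ R') (F j \ R')) := by
  induction n with
  | zero =>
    intro R A hA h
    refine ⟨R, A, subset_rfl, hA, fun i hi => (h i hi).1, ?_⟩
    intro i hi j hj _
    have := (h i hi).2
    rw [Finset.card_eq_zero] at this
    change Disjoint (F i \ R) (F j \ R)
    rw [this]
    exact Finset.disjoint_empty_left _
  | succ n ih =>
    intro R A hA h
    by_cases hc : ∃ a, a ∉ R ∧ ¬ {i | i ∈ A ∧ a ∈ F i}.Countable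
    · obtain ⟨a, haR, ha⟩ := hc
      obtain ⟨R', B, hB, hB2, hB3, hB4⟩ := ih (insert a R) {i | i ∈ A ∧ a ∈ F i} ha (by
        rintro i ⟨hi, hai⟩
        refine ⟨Finset.insert_subset hai (h i hi).1, ?_⟩
        have h1 : F i \ insert a R = (F i \ R).erase a := by
          ext c; simp only [Finset.mem_sdiff, Finset.mem_insert, Finset.mem_erase]; tauto
        rw [h1, Finset.card_erase_of_mem (Finset.mem_sdiff.2 ⟨hai, haR⟩), (h i hi).2]
        rfl)
      exact ⟨R', B, hB.trans (fun i hi => hi.1), hB2, hB3, hB4⟩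
    · push Not at hc
      obtain ⟨B, hBmax⟩ := zorn_subset
        {B : Set ι | B ⊆ A ∧ B.Pairwise (fun i j => Disjoint (F i \ R) (F j \ R))} (by
          intro c hc hchain
          refine ⟨⋃₀ c, ⟨?_, ?_⟩, fun s hs => Set.subset_sUnion_of_mem hs⟩
          · exact Set.sUnion_subset (fun s hs => (hc hs).1)
          · exact (Set.pairwise_sUnion hchain.directedOn).2 (fun s hs => (hc hs).2))
      have hB := hBmax.prop
      refine ⟨R, B, hB.1, ?_, fun i hi => (h i (hB.1 hi)).1, hB.2⟩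
      intro hBc
      have hU : (⋃ i ∈ B, (↑(F i \ R) : Set α)).Countable :=
        hBc.biUnion (fun i _ => (F i \ R).countable_toSet)
      have hA' : (⋃ a ∈ (⋃ i ∈ B, (↑(F i \ R) : Set α)), {i | i ∈ A ∧ a ∈ F i}).Countable := by
        refine hU.biUnion (fun a ha => hc a ?_)
        simp only [Set.mem_iUnion, Finset.mem_coe, Finset.mem_sdiff] at ha
        obtain ⟨i, _, hi⟩ := ha
        exact hi.2
      have hne : (A \ ((⋃ a ∈ (⋃ i ∈ B, (↑(F i \ R) : Set α)), {i | i ∈ A ∧ a ∈ F i}) ∪ B)).Nonempty := by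
        by_contra hcon
        rw [Set.not_nonempty_iff_eq_empty, Set.sdiff_eq_empty] at hcon
        exact hA ((hA'.union hBc).mono hcon)
      obtain ⟨j, hjA, hj⟩ := hne
      have hj1 : ∀ i ∈ B, Disjoint (F i \ R) (F j \ R) := by
        intro i hi
        rw [Finset.disjoint_left]
        intro a ha ha'
        apply hj
        left
        simp only [Set.mem_iUnion]
        refine ⟨a, ⟨i, hi, ha⟩, hjA, (Finset.mem_sdiff.1 ha').1⟩
      have hmem : insert j B ∈ {B : Set ι | B ⊆ A ∧ B.Pairwise (fun i j => Disjoint (F i \ R) (F j \ R))} := by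
        refine ⟨Set.insert_subset hjA hB.1, ?_⟩
        exact Set.pairwise_insert.2 ⟨hB.2, fun i hi _ => ⟨(hj1 i hi).symm, hj1 i hi⟩⟩
      have := hBmax.le_of_ge hmem (Set.subset_insert j B)
      exact hj (Or.inr (this (Set.mem_insert j B)))

theorem delta {ι α : Type*} [DecidableEq α] (F : ι → Finset α) {A : Set ι} (hA : ¬ A.Countable) :
    ∃ R : Finset α, ∃ B ⊆ A, ¬ B.Countable ∧ (∀ i ∈ B, R ⊆ F i) ∧
      B.Pairwise (fun i j => Disjoint (F i \ R) (F j \ R)) := by
  obtain ⟨n, hn⟩ := exists_fiber (fun i => (F i).card) hA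
  obtain ⟨R, B, hB, hB2, hB3, hB4⟩ := delta_aux F n ∅ _ hn (by
    rintro i ⟨_, hi⟩
    exact ⟨Finset.empty_subset _, by simpa using hi⟩)
  exact ⟨R, B, hB.trans (fun i hi => hi.1), hB2, hB3, hB4⟩

/-- In a pairwise disjoint family only finitely many members meet a given finite set. -/
theorem finite_meet {ι α : Type*} (s : ι → Finset α) (A : Set ι)
    (hs : ∀ i ∈ A, ∀ j ∈ A, i ≠ j → Disjoint (s i) (s j)) {T : Set α} (hT : T.Finite) :
    {i | i ∈ A ∧ ∃ c ∈ s i, c ∈ T}.Finite := by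
  classical
  rcases T.eq_empty_or_nonempty with hT0 | ⟨t₀, _⟩
  · rw [hT0]; simp
  let pick : ι → α := fun i => if h : ∃ c, c ∈ s i ∧ c ∈ T then Classical.choose h else t₀
  have hpick : ∀ i ∈ {i | i ∈ A ∧ ∃ c ∈ s i, c ∈ T}, pick i ∈ s i ∧ pick i ∈ T := by
    intro i hi
    have h : ∃ c, c ∈ s i ∧ c ∈ T := hi.2
    simp only [pick]
    rw [dif_pos h]
    exact Classical.choose_spec h
  refine Set.Finite.of_finite_image (f := pick) (hT.subset ?_) ?_
  · rintro _ ⟨i, hi, rfl⟩
    exact (hpick i hi).2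
  · intro i hi j hj h
    by_contra hne
    have hd := hs i hi.1 j hj.1 hne
    have h1 := (hpick i hi).1
    have h2 := (hpick j hj).1
    rw [← h] at h2
    exact (Finset.disjoint_left.1 hd) h1 h2

end DS55
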