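import Pool.Agent.DS55.Constr
import Pool.Agent.DS55.Delta

open Set

namespace DS55

variable {W : Type} [LinearOrder W] [WellFoundedLT W] [OmegaOneLike W]

/-- Finite constraint sets on `k` rows. -/
abbrev Con (W : Type) (k : ℕ) : Type := Finset (Fin k × (W × ℕ) × Bool)

/-- The set of indices whose tuple of rows satisfies the constraints. -/
def Xi {k : ℕ} (x : W → ℕ → W × ℕ → Bool) (t : W → Fin k → W × ℕ) (σ : Con W k) : Set W :=
  {ξ | ∀ e ∈ σ, x (t ξ e.1).1 (t ξ e.1).2 e.2.1 = e.2.2}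

theorem countable_cons {k : ℕ} (β : W) : {σ : Con W k | ∀ e ∈ σ, e.2.1.1 ≤ β}.Countable := by
  have hT : {e : Fin k × (W × ℕ) × Bool | e.2.1.1 ≤ β}.Countable := by
    have h1 : {e : Fin k × (W × ℕ) × Bool | e.2.1.1 ≤ β} =
        Set.univ ×ˢ ((Set.Iic β ×ˢ Set.univ) ×ˢ Set.univ) := by
      ext e; simp
    rw [h1]
    exact Set.countable_univ.prod (((cIic β).prod Set.countable_univ).prod Set.countable_univ)
  have h2 := Set.countable_ofPred_finite_subset hT
  have h3 : {σ : Con W k | ∀ e ∈ σ, e.2.1.1 ≤ β} =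
      (fun σ : Con W k => (σ : Set (Fin k × (W × ℕ) × Bool))) ⁻¹'
        {t | t.Finite ∧ t ⊆ {e : Fin k × (W × ℕ) × Bool | e.2.1.1 ≤ β}} := by
    ext σ
    simp only [Set.mem_ofPred_eq, Set.mem_preimage]
    constructor
    · intro h
      exact ⟨σ.finite_toSet, fun e he => h e he⟩
    · intro h e he
      exact h.2 he
  rw [h3]
  exact h2.preimage_of_injOn (fun a _ b _ hab => Finset.coe_injective hab)

/-- closure function -/
theorem exists_closure_fun {k : ℕ} (x : W → ℕ → W × ℕ → Bool) (t : W → Fin k → W × ℕ)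
    (s : W → Cond W) : ∃ h : W → W, ∀ β,
      (∀ c ∈ (s β).1 ∪ (s β).2, c.1 < h β) ∧
      (∀ σ : Con W k, (∀ e ∈ σ, e.2.1.1 ≤ β) → ¬ (Xi x t σ).Countable →
        ∃ ξ ∈ Xi x t σ, β < ξ ∧ ξ < h β) := by
  classical
  have hpick : ∀ β : W, ∀ σ : Con W k, ∃ ξ : W, ¬ (Xi x t σ).Countable → ξ ∈ Xi x t σ ∧ β < ξ := by
    intro β σ
    by_cases hσ : (Xi x t σ).Countable
    · exact ⟨β, fun h => absurd hσ h⟩
    · obtain ⟨ξ, h1, h2⟩ := unb_of_not_countable hσ β
      exact ⟨ξ, fun _ => ⟨h1, h2⟩⟩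
  choose pick hpick using hpick
  have hb : ∀ β : W, ∃ w : W, ∀ v ∈ (pick β '' {σ : Con W k | ∀ e ∈ σ, e.2.1.1 ≤ β}) ∪
      (Prod.fst '' (↑((s β).1 ∪ (s β).2) : Set (W × ℕ))), v < w := by
    intro β
    apply bdd_of_countable
    exact ((countable_cons β).image _).union ((Finset.countable_toSet _).image _)
  choose h hh using hb
  refine ⟨h, fun β => ⟨?_, ?_⟩⟩
  · intro c hc
    exact hh β _ (Or.inr ⟨c, hc, rfl⟩)
  · intro σ hσ hu
    exact ⟨pick β σ, (hpick β σ hu).1, (hpick β σ hu).2, hh β _ (Or.inl ⟨σ, hσ, rfl⟩)⟩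

/-- At a correct guess of a pairwise disjoint family the accumulation step can be performed. -/
theorem good_at_guess (S : W → W → Cond W) (D : W → Set (W × ℕ)) (x : W → ℕ → W × ℕ → Bool)
    (hx : ∀ l, Spec S D l x (x l)) {k : ℕ} (s : W → Cond W) (t : W → Fin k → W × ℕ)
    (ht1 : ∀ ξ i, t ξ i ∈ (s ξ).1) (ht2 : ∀ ξ, ∀ c ∈ (s ξ).1, ∃ i, t ξ i = c)
    (hd : ∀ ξ, Disjoint (s ξ).1 (s ξ).2)
    (hdd : ∀ ξ η, ξ ≠ η → Disjoint ((s ξ).1 ∪ (s ξ).2) ((s η).1 ∪ (s η).2))
    (l : W) (hl0 : ∃ β, β < l)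
    (hl1 : ∀ ξ < l, ∀ c ∈ (s ξ).1 ∪ (s ξ).2, c.1 < l)
    (hl2 : ∀ β < l, ∀ σ : Con W k, (∀ e ∈ σ, e.2.1.1 ≤ β) → ¬ (Xi x t σ).Countable →
        ∃ ξ ∈ Xi x t σ, β < ξ ∧ ξ < l)
    (hl3 : ∀ ξ < l, S l ξ = s ξ) :
    ∃ y', (∀ i, Pre S l x (y' i)) ∧ Good l (S l) x y' := by
  classical
  have htinj : ∀ (i : Fin k) (μ : W), {ξ | (t ξ i).1 ≤ μ}.Countable := by
    intro i μ
    have h1 : ((fun ξ => t ξ i) '' {ξ | (t ξ i).1 ≤ μ}).Countable := by
      have h2 : (Set.Iic μ ×ˢ (Set.univ : Set ℕ)).Countable := (cIic μ).prod Set.countable_univ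
      refine h2.mono ?_
      rintro _ ⟨ξ, hξ, rfl⟩
      exact ⟨hξ, Set.mem_univ _⟩
    refine Set.countable_of_injective_of_countable_image ?_ h1
    intro ξ _ η _ h
    by_contra hne
    have h3 := hdd ξ η hne
    have h4 : t ξ i = t η i := h
    exact (Finset.disjoint_left.1 h3) (Finset.mem_union_left _ (ht1 ξ i))
      (by rw [h4]; exact Finset.mem_union_left _ (ht1 η i))
  -- the poset
  let Q : Type := {σ : Con W k // (∀ e ∈ σ, e.2.1.1 < l) ∧ ¬ (Xi x t σ).Countable}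
  let CD : (Fin k × (Set.Iio l × ℕ)) → Order.Cofinal Q := fun a =>
    { carrier := {σ | ∃ v, (a.1, ((a.2.1 : W), a.2.2), v) ∈ σ.1}
      isCofinal := by
        intro σ
        obtain ⟨v, hv⟩ := exists_fiber (fun ξ => x (t ξ a.1).1 (t ξ a.1).2 ((a.2.1 : W), a.2.2)) σ.2.2
        refine ⟨⟨insert (a.1, ((a.2.1 : W), a.2.2), v) σ.1, ?_, ?_⟩, ⟨v, Finset.mem_insert_self _ _⟩,
          Finset.subset_insert _ _⟩
        · intro e he
          rcases Finset.mem_insert.1 he with h | h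
          · rw [h]; exact a.2.1.2
          · exact σ.2.1 e h
        · intro hc
          apply hv
          refine hc.mono ?_
          rintro ξ ⟨h1, h2⟩ e he
          rcases Finset.mem_insert.1 he with h | h
          · rw [h]; exact h2
          · exact h1 e h }
  let CZ : (Fin k × Set.Iio l) → Order.Cofinal Q := fun a =>
    { carrier := {σ | ∃ n, (a.1, ((a.2 : W), n), false) ∈ σ.1}
      isCofinal := by
        intro σ
        have hu : ¬ (Xi x t σ.1 \ {ξ | (t ξ a.1).1 ≤ (a.2 : W)}).Countable := by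
          intro h
          apply σ.2.2
          refine (h.union (htinj a.1 a.2)).mono ?_
          intro ξ hξ
          by_cases hle : (t ξ a.1).1 ≤ (a.2 : W)
          · exact Or.inr hle
          · exact Or.inl ⟨hξ, hle⟩
        have hg : ∀ ξ, ∃ n : ℕ, (a.2 : W) < (t ξ a.1).1 →
            x (t ξ a.1).1 (t ξ a.1).2 ((a.2 : W), n) = false := by
          intro ξ
          by_cases h : (a.2 : W) < (t ξ a.1).1
          · obtain ⟨n, hn⟩ := ((hx (t ξ a.1).1).1 (t ξ a.1).2).2.1 a.2 h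
            exact ⟨n, fun _ => hn⟩
          · exact ⟨0, fun h' => absurd h' h⟩
        choose g hg using hg
        obtain ⟨n, hn⟩ := exists_fiber g hu
        refine ⟨⟨insert (a.1, ((a.2 : W), n), false) σ.1, ?_, ?_⟩, ⟨n, Finset.mem_insert_self _ _⟩,
          Finset.subset_insert _ _⟩
        · intro e he
          rcases Finset.mem_insert.1 he with h | h
          · rw [h]; exact a.2.2
          · exact σ.2.1 e h
        · intro hc
          apply hn
          refine hc.mono ?_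
          rintro ξ ⟨⟨h1, h1'⟩, h2⟩ e he
          rcases Finset.mem_insert.1 he with h | h
          · rw [h, ← h2]
            exact hg ξ (not_le.1 h1')
          · exact h1 e h }
  let CH : (Fin k × Set.Iio l) → Order.Cofinal Q := fun a =>
    { carrier := {σ | Good (a.2 : W) (S a.2) x (x a.2) → ∃ ζ < (a.2 : W),
        (∀ c ∈ (S a.2 ζ).1, (a.1, c, true) ∈ σ.1) ∧ (∀ c ∈ (S a.2 ζ).2, (a.1, c, false) ∈ σ.1)}
      isCofinal := by
        intro σ
        by_cases hgood : Good (a.2 : W) (S a.2) x (x a.2)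
        · have hu : ¬ (Xi x t σ.1 \ {ξ | (t ξ a.1).1 ≤ (a.2 : W)}).Countable := by
            intro h
            apply σ.2.2
            refine (h.union (htinj a.1 a.2)).mono ?_
            intro ξ hξ
            by_cases hle : (t ξ a.1).1 ≤ (a.2 : W)
            · exact Or.inr hle
            · exact Or.inl ⟨hξ, hle⟩
          obtain ⟨ζ₀, hζ₀⟩ : ∃ ζ₀ : W, ζ₀ < (a.2 : W) := by
            -- some index exists
            have hne : (Xi x t σ.1 \ {ξ | (t ξ a.1).1 ≤ (a.2 : W)}).Nonempty := by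
              by_contra hcon
              rw [Set.not_nonempty_iff_eq_empty] at hcon
              rw [hcon] at hu
              exact hu Set.countable_empty
            obtain ⟨ξ, hξ⟩ := hne
            obtain ⟨ζ, hζ, _⟩ := ((hx (t ξ a.1).1).1 (t ξ a.1).2).2.2 a.2 (not_le.1 hξ.2) hgood
            exact ⟨ζ, hζ⟩
          have : Countable (Set.Iio (a.2 : W)) := (OmegaOneLike.cIio (a.2 : W)).to_subtype
          have hg : ∀ ξ, ∃ ζ : Set.Iio (a.2 : W), (a.2 : W) < (t ξ a.1).1 →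
              Sat (x (t ξ a.1).1 (t ξ a.1).2) (S a.2 ζ) := by
            intro ξ
            by_cases h : (a.2 : W) < (t ξ a.1).1
            · obtain ⟨ζ, hζ, h'⟩ := ((hx (t ξ a.1).1).1 (t ξ a.1).2).2.2 a.2 h hgood
              exact ⟨⟨ζ, hζ⟩, fun _ => h'⟩
            · exact ⟨⟨ζ₀, hζ₀⟩, fun h' => absurd h' h⟩
          choose g hg using hg
          obtain ⟨ζ, hζ⟩ := exists_fiber g hu
          refine ⟨⟨σ.1 ∪ ((S a.2 ζ).1.image (fun c => (a.1, c, true)) ∪
            (S a.2 ζ).2.image (fun c => (a.1, c, false))), ?_, ?_⟩, ?_, ?_⟩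
          · intro e he
            rcases Finset.mem_union.1 he with h | h
            · exact σ.2.1 e h
            · rcases Finset.mem_union.1 h with h | h
              · obtain ⟨c, hc, rfl⟩ := Finset.mem_image.1 h
                exact lt_trans (hgood.1.1 ζ ζ.2 c (Finset.mem_union_left _ hc)) a.2.2
              · obtain ⟨c, hc, rfl⟩ := Finset.mem_image.1 h
                exact lt_trans (hgood.1.1 ζ ζ.2 c (Finset.mem_union_right _ hc)) a.2.2
          · intro hc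
            apply hζ
            refine hc.mono ?_
            rintro ξ ⟨⟨h1, h1'⟩, h2⟩ e he
            have hsat := hg ξ (not_le.1 h1')
            rw [h2] at hsat
            rcases Finset.mem_union.1 he with h | h
            · exact h1 e h
            · rcases Finset.mem_union.1 h with h | h
              · obtain ⟨c, hc, rfl⟩ := Finset.mem_image.1 h
                exact hsat.1 c hc
              · obtain ⟨c, hc, rfl⟩ := Finset.mem_image.1 h
                exact hsat.2 c hc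
          · intro _
            refine ⟨ζ, ζ.2, fun c hc => ?_, fun c hc => ?_⟩
            · exact Finset.mem_union_right _ (Finset.mem_union_left _
                (Finset.mem_image.2 ⟨c, hc, rfl⟩))
            · exact Finset.mem_union_right _ (Finset.mem_union_right _
                (Finset.mem_image.2 ⟨c, hc, rfl⟩))
          · exact Finset.subset_union_left
        · exact ⟨σ, fun h => absurd h hgood, le_refl _⟩ }
  have hcl : Countable (Set.Iio l) := (OmegaOneLike.cIio l).to_subtype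
  have : Encodable ((Fin k × (Set.Iio l × ℕ)) ⊕ ((Fin k × Set.Iio l) ⊕ (Fin k × Set.Iio l))) :=
    Encodable.ofCountable _
  let 𝒟 : ((Fin k × (Set.Iio l × ℕ)) ⊕ ((Fin k × Set.Iio l) ⊕ (Fin k × Set.Iio l))) →
      Order.Cofinal Q := Sum.elim CD (Sum.elim CZ CH)
  have huniv : ¬ (Xi x t (∅ : Con W k)).Countable := by
    have : Xi x t (∅ : Con W k) = Set.univ := by
      ext ξ; simp [Xi]
    rw [this]
    exact OmegaOneLike.unc
  let q₀ : Q := ⟨∅, by simp, huniv⟩
  let J := Order.idealOfCofinals q₀ 𝒟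
  have hJ : ∀ i, ∃ q : Q, q ∈ 𝒟 i ∧ q ∈ J := fun i => Order.cofinal_meets_idealOfCofinals q₀ 𝒟 i
  let y₀ : Fin k → W × ℕ → Bool := fun i c => decide (l ≤ c.1 ∨ ∃ q : Q, q ∈ J ∧ (i, c, true) ∈ q.1)
  have hy1 : ∀ q : Q, q ∈ J → ∀ i c, (i, c, true) ∈ q.1 → y₀ i c = true := by
    intro q hq i c hc
    simp only [y₀, decide_eq_true_eq]
    exact Or.inr ⟨q, hq, hc⟩
  have hy2 : ∀ q : Q, q ∈ J → ∀ i c, (i, c, false) ∈ q.1 → y₀ i c = false := by
    intro q hq i c hc
    simp only [y₀, decide_eq_false_iff_not]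
    rintro (h | ⟨q', hq', hc'⟩)
    · exact absurd (q.2.1 _ hc) (not_lt.2 h)
    · obtain ⟨r, hr, hr1, hr2⟩ := J.directed q hq q' hq'
      have h1 : (i, c, false) ∈ r.1 := hr1 hc
      have h2 : (i, c, true) ∈ r.1 := hr2 hc'
      have hne : (Xi x t r.1).Nonempty := by
        by_contra hcon
        rw [Set.not_nonempty_iff_eq_empty] at hcon
        apply r.2.2
        rw [hcon]
        exact Set.countable_empty
      obtain ⟨ξ, hξ⟩ := hne
      have h3 := hξ _ h1
      have h4 := hξ _ h2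
      simp only at h3 h4
      rw [h3] at h4
      exact Bool.noConfusion h4
  have hyv : ∀ q : Q, q ∈ J → ∀ i c v, (i, c, v) ∈ q.1 → y₀ i c = v := by
    intro q hq i c v hv
    cases v with
    | true => exact hy1 q hq i c hv
    | false => exact hy2 q hq i c hv
  have hPre : ∀ i, Pre S l x (y₀ i) := by
    intro i
    refine ⟨?_, ?_, ?_⟩
    · intro c hc
      simp only [y₀, decide_eq_true_eq]
      exact Or.inl hc
    · intro μ hμ
      obtain ⟨q, ⟨n, hn⟩, hq⟩ := hJ (Sum.inr (Sum.inl (i, ⟨μ, hμ⟩)))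
      exact ⟨n, hy2 q hq _ _ hn⟩
    · intro μ hμ hg
      obtain ⟨q, hq1, hq⟩ := hJ (Sum.inr (Sum.inr (i, ⟨μ, hμ⟩)))
      obtain ⟨ζ, hζ, h1, h2⟩ := hq1 hg
      exact ⟨ζ, hζ, fun c hc => hy1 q hq _ _ (h1 c hc), fun c hc => hy2 q hq _ _ (h2 c hc)⟩
  -- finitely many coordinates are decided by one member of the ideal
  have hdec : ∀ T : Finset (Fin k × (W × ℕ)), (∀ a ∈ T, a.2.1 < l) →
      ∃ q : Q, q ∈ J ∧ ∀ a ∈ T, (a.1, a.2, y₀ a.1 a.2) ∈ q.1 := by
    intro T
    induction T using Finset.induction_on with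
    | empty => intro _; exact ⟨q₀, Order.mem_idealOfCofinals q₀ 𝒟, by simp⟩
    | insert a T _ ih =>
      intro hT
      obtain ⟨q, hq, hq2⟩ := ih (fun a ha => hT a (Finset.mem_insert_of_mem ha))
      obtain ⟨q', ⟨v, hv⟩, hq'⟩ := hJ (Sum.inl (a.1, (⟨a.2.1, hT a (Finset.mem_insert_self _ _)⟩, a.2.2)))
      obtain ⟨r, hr, hr1, hr2⟩ := J.directed q hq q' hq'
      refine ⟨r, hr, ?_⟩
      intro b hb
      rcases Finset.mem_insert.1 hb with h | h
      · rw [h]
        have h1 := hyv q' hq' _ _ _ hv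
        have h2 : y₀ a.1 a.2 = v := h1
        rw [h2]
        exact hr2 hv
      · exact hr1 (hq2 b h)
  obtain ⟨κ, hκ, _⟩ := exists_row S l x ∅ (by simp) (fun μ _ i =>
    ⟨(∅, ∅), ⟨by simp, by simp⟩, by simp⟩)
  let y' : ℕ → W × ℕ → Bool := fun j => if h : j < k then y₀ ⟨j, h⟩ else κ
  refine ⟨y', ?_, ?_, ?_⟩
  · intro j
    by_cases h : j < k
    · have : y' j = y₀ ⟨j, h⟩ := by simp only [y']; rw [dif_pos h]
      rw [this]; exact hPre _
    · have : y' j = κ := by simp only [y']; rw [dif_neg h]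
      rw [this]; exact hκ
  · refine ⟨?_, ?_, ?_⟩
    · intro ξ hξ c hc
      rw [hl3 ξ hξ] at hc
      exact hl1 ξ hξ c hc
    · intro ξ hξ
      rw [hl3 ξ hξ]; exact hd ξ
    · intro ξ hξ η hη hne
      rw [hl3 ξ hξ, hl3 η hη]
      exact hdd ξ η hne
  · intro E hE hloc
    have hloc' : ∀ i : Fin k, ∃ b : Cond W, Sat (y₀ i) b ∧ {c | c ∈ E ∧ Sat (x c.1 c.2) b}.Finite := by
      intro i
      have h1 := hloc i
      have : y' i = y₀ i := by simp only [y']; rw [dif_pos i.2]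
      rw [this] at h1
      exact h1
    choose b hb1 hb2 using hloc'
    let T : Finset (Fin k × (W × ℕ)) := (Finset.univ.biUnion (fun i : Fin k =>
      (((b i).1 ∪ (b i).2).image (fun c => (i, c))))).filter (fun a => a.2.1 < l)
    obtain ⟨q, hq, hq2⟩ := hdec T (fun a ha => (Finset.mem_filter.1 ha).2)
    have hmemT : ∀ (i : Fin k) (c : W × ℕ), c ∈ (b i).1 ∪ (b i).2 → c.1 < l → (i, c) ∈ T := by
      intro i c hc hcl
      refine Finset.mem_filter.2 ⟨Finset.mem_biUnion.2 ⟨i, Finset.mem_univ _,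
        Finset.mem_image.2 ⟨c, hc, rfl⟩⟩, hcl⟩
    have hsat : ∀ ξ ∈ Xi x t q.1, ξ < l → ∀ i, Sat (x (t ξ i).1 (t ξ i).2) (b i) := by
      intro ξ hξ hξl i
      have hstage : (t ξ i).1 < l := hl1 ξ hξl _ (Finset.mem_union_left _ (ht1 ξ i))
      constructor
      · intro c hc
        by_cases hcl : c.1 < l
        · have h1 := hξ _ (hq2 (i, c) (hmemT i c (Finset.mem_union_left _ hc) hcl))
          simp only at h1
          rw [h1]
          exact (hb1 i).1 c hc
        · exact ((hx (t ξ i).1).1 (t ξ i).2).1 c (le_trans hstage.le (not_lt.1 hcl))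
      · intro c hc
        by_cases hcl : c.1 < l
        · have h1 := hξ _ (hq2 (i, c) (hmemT i c (Finset.mem_union_right _ hc) hcl))
          simp only at h1
          rw [h1]
          exact (hb1 i).2 c hc
        · exfalso
          have h1 := (hPre i).1 c (not_lt.1 hcl)
          have h2 := (hb1 i).2 c hc
          rw [h1] at h2
          exact Bool.noConfusion h2
    -- the indices below l satisfying the constraints form an infinite set
    have hinf : (Xi x t q.1 ∩ Set.Iio l).Infinite := by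
      intro hfin
      obtain ⟨β, hβl, hβ⟩ : ∃ β < l, ∀ v ∈ (Xi x t q.1 ∩ Set.Iio l) ∪
          (↑(q.1.image (fun e => e.2.1.1)) : Set W), v ≤ β := by
        have hf2 : ((Xi x t q.1 ∩ Set.Iio l) ∪ (↑(q.1.image (fun e => e.2.1.1)) : Set W)).Finite :=
          hfin.union (Finset.finite_toSet _)
        have hlt : ∀ v ∈ (Xi x t q.1 ∩ Set.Iio l) ∪ (↑(q.1.image (fun e => e.2.1.1)) : Set W),
            v < l := by
          rintro v (hv | hv)
          · exact hv.2
          · obtain ⟨e, he, rfl⟩ := Finset.mem_image.1 (Finset.mem_coe.1 hv)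
            exact q.2.1 e he
        rcases Set.eq_empty_or_nonempty ((Xi x t q.1 ∩ Set.Iio l) ∪
          (↑(q.1.image (fun e => e.2.1.1)) : Set W)) with h0 | h0
        · obtain ⟨β, hβ⟩ := hl0
          refine ⟨β, hβ, ?_⟩
          rw [h0]
          intro v hv
          exact absurd hv (Set.notMem_empty v)
        · obtain ⟨m, hm, hm2⟩ := Set.exists_max_image _ id hf2 h0
          exact ⟨m, hlt m hm, fun v hv => hm2 v hv⟩
      obtain ⟨ξ, hξ, h1, h2⟩ := hl2 β hβl q.1 (fun e he => hβ _ (Or.inr (by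
        exact Finset.mem_coe.2 (Finset.mem_image.2 ⟨e, he, rfl⟩)))) q.2.2
      exact absurd (hβ ξ (Or.inl ⟨hξ, h2⟩)) (not_le.2 h1)
    have hTfin : (⋃ i : Fin k, {c | c ∈ E ∧ Sat (x c.1 c.2) (b i)}).Finite :=
      Set.finite_iUnion hb2
    have hmeet := finite_meet (fun ξ => (s ξ).1) (Set.univ) (fun ξ _ η _ hne =>
      Finset.disjoint_of_subset_left Finset.subset_union_left
        (Finset.disjoint_of_subset_right Finset.subset_union_left (hdd ξ η hne))) hTfin
    refine (hinf.sdiff hmeet).mono ?_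
    rintro ξ ⟨⟨hξ1, hξ2⟩, hξ3⟩
    refine ⟨hξ2, ?_⟩
    intro c hc hcE
    rw [hl3 ξ hξ2] at hc
    apply hξ3
    refine ⟨Set.mem_univ _, c, hc, ?_⟩
    obtain ⟨i, rfl⟩ := ht2 ξ c hc
    exact Set.mem_iUnion.2 ⟨i, hcE, hsat ξ hξ1 hξ2 i⟩

theorem no_right_sep (S : W → W → Cond W) (D : W → Set (W × ℕ)) (x : W → ℕ → W × ℕ → Bool)
    (hx : ∀ l, Spec S D l x (x l))
    (hS : ∀ f : W → Cond W, ∀ h : W → W, ∀ β₀ : W,
      ∃ l : W, β₀ < l ∧ (∀ ξ < l, h ξ < l) ∧ ∀ ξ < l, S l ξ = f ξ)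
    (p : W → W × ℕ) (b : W → Cond W) (h1 : ∀ ξ, Sat (x (p ξ).1 (p ξ).2) (b ξ))
    (h2 : ∀ ξ η, ξ < η → ¬ Sat (x (p η).1 (p η).2) (b ξ)) : False := by
  classical
  have hpinj : Function.Injective p := by
    intro ξ η h
    rcases lt_trichotomy ξ η with hlt | heq | hlt
    · exact absurd (h ▸ h1 ξ) (h2 ξ η hlt)
    · exact heq
    · exact absurd (h.symm ▸ h1 η) (h2 η ξ hlt)
  obtain ⟨R, B, -, hBu, hBR, hBd⟩ := delta (fun ξ => (b ξ).1 ∪ (b ξ).2)
    (A := (Set.univ : Set W)) OmegaOneLike.unc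
  -- constant traces on the root and constant size
  obtain ⟨v, hv⟩ := exists_fiber (fun ξ : W =>
    ((fun c : R => decide ((c : W × ℕ) ∈ (b ξ).1), fun c : R => decide ((c : W × ℕ) ∈ (b ξ).2),
      ((b ξ).1 \ R).card) : (R → Bool) × (R → Bool) × ℕ)) hBu
  obtain ⟨v1, v2, k⟩ := v
  let B' : Set W := {ξ | ξ ∈ B ∧ ((fun c : R => decide ((c : W × ℕ) ∈ (b ξ).1),
    fun c : R => decide ((c : W × ℕ) ∈ (b ξ).2),
      ((b ξ).1 \ R).card) : (R → Bool) × (R → Bool) × ℕ) = (v1, v2, k)}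
  have hB'u : ¬ B'.Countable := hv
  have hB'1 : ∀ ξ ∈ B', ∀ η ∈ B', ∀ c ∈ R, (c ∈ (b ξ).1 ↔ c ∈ (b η).1) := by
    intro ξ hξ η hη c hc
    have e1 := congrFun (congrArg Prod.fst hξ.2) ⟨c, hc⟩
    have e2 := congrFun (congrArg Prod.fst hη.2) ⟨c, hc⟩
    simp only at e1 e2
    rw [← e2] at e1
    exact decide_eq_decide.1 e1
  have hB'2 : ∀ ξ ∈ B', ∀ η ∈ B', ∀ c ∈ R, (c ∈ (b ξ).2 ↔ c ∈ (b η).2) := by
    intro ξ hξ η hη c hc
    have e1 := congrFun (congrArg (fun z => z.2.1) hξ.2) ⟨c, hc⟩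
    have e2 := congrFun (congrArg (fun z => z.2.1) hη.2) ⟨c, hc⟩
    simp only at e1 e2
    rw [← e2] at e1
    exact decide_eq_decide.1 e1
  have hB'3 : ∀ ξ ∈ B', ((b ξ).1 \ R).card = k := by
    intro ξ hξ
    exact congrArg (fun z => z.2.2) hξ.2
  -- an increasing enumeration of a subset of B'
  have : Nonempty W := by
    by_contra hcon
    rw [not_nonempty_iff] at hcon
    exact OmegaOneLike.unc (W := W) (Set.countable_univ)
  obtain ⟨f, hf⟩ := exists_rec (W := W) (α := W)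
    (P := fun ξ f y => y ∈ B' ∧ ∀ η < ξ, f η < y)
    (fun l x x' y hxx' h => ⟨h.1, fun η hη => by rw [← hxx' η hη]; exact h.2 η hη⟩)
    (fun l x _ => by
      obtain ⟨w, hw⟩ := bdd_of_countable ((OmegaOneLike.cIio l).image x)
      obtain ⟨y, hy, hwy⟩ := unb_of_not_countable hB'u w
      exact ⟨y, hy, fun η hη => lt_trans (hw _ ⟨η, hη, rfl⟩) hwy⟩)
  have hfmono : ∀ η ξ, η < ξ → f η < f ξ := fun η ξ h => (hf ξ).2 η h
  have hfinj : ∀ η ξ, η ≠ ξ → f η ≠ f ξ := by
    intro η ξ h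
    rcases lt_or_gt_of_ne h with h' | h'
    · exact (hfmono _ _ h').ne
    · exact (hfmono _ _ h').ne'
  let s : W → Cond W := fun ξ => ((b (f ξ)).1 \ R, (b (f ξ)).2 \ R)
  have hk : ∀ ξ, ((s ξ).1).card = k := fun ξ => hB'3 (f ξ) (hf ξ).1
  let t : W → Fin k → W × ℕ := fun ξ i => (((s ξ).1.equivFinOfCardEq (hk ξ)).symm i : W × ℕ)
  have ht1 : ∀ ξ i, t ξ i ∈ (s ξ).1 := fun ξ i => (((s ξ).1.equivFinOfCardEq (hk ξ)).symm i).2
  have ht2 : ∀ ξ, ∀ c ∈ (s ξ).1, ∃ i, t ξ i = c := by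
    intro ξ c hc
    refine ⟨(s ξ).1.equivFinOfCardEq (hk ξ) ⟨c, hc⟩, ?_⟩
    simp only [t, Equiv.symm_apply_apply]
  have hd : ∀ ξ, Disjoint (s ξ).1 (s ξ).2 := by
    intro ξ
    rw [Finset.disjoint_left]
    intro c hc hc'
    have e1 := (h1 (f ξ)).1 c (Finset.mem_sdiff.1 hc).1
    have e2 := (h1 (f ξ)).2 c (Finset.mem_sdiff.1 hc').1
    rw [e1] at e2
    exact Bool.noConfusion e2
  have hdd : ∀ ξ η, ξ ≠ η → Disjoint ((s ξ).1 ∪ (s ξ).2) ((s η).1 ∪ (s η).2) := by
    intro ξ η hne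
    have := hBd (hf ξ).1.1 (hf η).1.1 (hfinj ξ η hne)
    have e : ∀ ζ, (s ζ).1 ∪ (s ζ).2 = ((b (f ζ)).1 ∪ (b (f ζ)).2) \ R := by
      intro ζ
      simp only [s]
      rw [Finset.union_sdiff_distrib]
    rw [e ξ, e η]
    exact this
  obtain ⟨h, hh⟩ := exists_closure_fun x t s
  obtain ⟨l, hl0, hl1, hl2⟩ := hS s h (Classical.arbitrary W)
  have hgood : Good l (S l) x (x l) := by
    apply (hx l).2.1
    refine good_at_guess S D x hx s t ht1 ht2 hd hdd l ⟨_, hl0⟩ ?_ ?_ hl2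
    · intro ξ hξ c hc
      exact lt_trans ((hh ξ).1 c hc) (hl1 ξ hξ)
    · intro β hβ σ hσ hu
      obtain ⟨ξ, hξ, e1, e2⟩ := (hh β).2 σ hσ hu
      exact ⟨ξ, hξ, e1, lt_trans e2 (hl1 β hβ)⟩
  -- find a late point of the family
  obtain ⟨w, hw⟩ := bdd_of_countable ((OmegaOneLike.cIio l).image f)
  have hlate : ¬ (B' \ {η | (p η).1 ≤ l}).Countable := by
    intro hc
    have h3 : {η | (p η).1 ≤ l}.Countable := by
      have h4 : (p '' {η | (p η).1 ≤ l}).Countable := by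
        have h5 : (Set.Iic l ×ˢ (Set.univ : Set ℕ)).Countable := (cIic l).prod Set.countable_univ
        refine h5.mono ?_
        rintro _ ⟨η, hη, rfl⟩
        exact ⟨hη, Set.mem_univ _⟩
      exact Set.countable_of_injective_of_countable_image (hpinj.injOn) h4
    apply hB'u
    refine (hc.union h3).mono ?_
    intro η hη
    by_cases hle : (p η).1 ≤ l
    · exact Or.inr hle
    · exact Or.inl ⟨hη, hle⟩
  obtain ⟨η, ⟨hηB, hηl⟩, hwη⟩ := unb_of_not_countable hlate w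
  obtain ⟨ξ, hξ, hsat⟩ := ((hx (p η).1).1 (p η).2).2.2 l (not_le.1 hηl) hgood
  rw [hl2 ξ hξ] at hsat
  apply h2 (f ξ) η (lt_trans (hw _ ⟨ξ, hξ, rfl⟩) hwη)
  constructor
  · intro c hc
    by_cases hcR : c ∈ R
    · exact (h1 η).1 c ((hB'1 (f ξ) (hf ξ).1 η hηB c hcR).1 hc)
    · exact hsat.1 c (Finset.mem_sdiff.2 ⟨hc, hcR⟩)
  · intro c hc
    by_cases hcR : c ∈ R
    · exact (h1 η).2 c ((hB'2 (f ξ) (hf ξ).1 η hηB c hcR).1 hc)
    · exact hsat.2 c (Finset.mem_sdiff.2 ⟨hc, hcR⟩)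

end DS55
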