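import Pool.Agent.DS55.Top

open Set Cardinal

namespace DS55

/-- A concrete copy of the first uncountable ordinal. -/
abbrev OM : Type := (Ordinal.omega 1 : Ordinal.{0}).ToType

theorem mk_OM : #OM = Cardinal.aleph 1 := by
  rw [Cardinal.mk_toType, Ordinal.card_omega]

instance : OmegaOneLike OM where
  cIio w := by
    have h1 : #(Set.Iio w) < #OM := Cardinal.mk_Iio_lt w (by
      rw [mk_OM, Cardinal.ord_aleph, Ordinal.type_toType])
    rw [mk_OM, Cardinal.lt_aleph_one_iff] at h1
    exact Cardinal.le_aleph0_iff_set_countable.1 h1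
  unc h := by
    have h1 : #OM ≤ Cardinal.aleph0 := by
      rw [Cardinal.mk_le_aleph0_iff]
      exact Set.countable_univ_iff.1 h
    rw [mk_OM] at h1
    exact absurd h1 (not_le.2 Cardinal.aleph0_lt_aleph_one)

instance : Infinite OM := by
  rw [Cardinal.infinite_iff, mk_OM]
  exact Cardinal.aleph0_lt_aleph_one.le

theorem mk_idx : #(OM × ℕ) = #OM := by
  rw [Cardinal.mk_prod, Cardinal.lift_id, Cardinal.lift_id, Cardinal.mk_nat]
  exact Cardinal.mul_eq_left (Cardinal.aleph0_le_mk OM) (Cardinal.aleph0_le_mk OM) Cardinal.aleph0_ne_zero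

theorem mk_cond : #(Cond OM) = #OM := by
  have h1 : #(Finset (OM × ℕ)) = #OM := by rw [Cardinal.mk_finset_of_infinite, mk_idx]
  change #(Finset (OM × ℕ) × Finset (OM × ℕ)) = #OM
  rw [Cardinal.mk_prod]
  simp only [Cardinal.lift_id]
  rw [h1]
  exact Cardinal.mul_eq_self (Cardinal.aleph0_le_mk OM)

theorem emb_cond : Nonempty (OM × Cond OM ↪ OM) := by
  rw [← Cardinal.le_def, Cardinal.mk_prod]
  simp only [Cardinal.lift_id]
  rw [mk_cond]
  exact (Cardinal.mul_eq_self (Cardinal.aleph0_le_mk OM)).le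

theorem emb_idx : Nonempty (OM × ℕ ↪ OM) := by
  rw [← Cardinal.le_def, mk_idx]

/-- The counterexample from diamond on `OM`. -/
theorem counterexample_of_diamondW (hd : DiamondW OM) :
    ∃ (X : Type) (_ : TopologicalSpace X), T3Space X ∧ HereditarilyLindelofSpace X ∧
      (∀ A : Set X, A.Countable → (closure A).Countable) ∧ ¬ IsDSpace X := by
  obtain ⟨e1⟩ := emb_cond
  obtain ⟨e2⟩ := emb_idx
  obtain ⟨S, hS⟩ := exists_guess_fun' e1 hd
  obtain ⟨D, hD⟩ := exists_guess_set e2 hd
  obtain ⟨x, hx⟩ := exists_space S D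
  have hHL : HereditarilyLindelofSpace (Sp x) := sp_hl S D x hx hS
  exact ⟨Sp x, inferInstance, inferInstance, hHL, fun A hA => sp_closure S D x hx A hA,
    sp_not_D S D x hx hD hHL⟩

end DS55
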