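import Pool.Agent.DS55.HL

open Set

namespace DS55

/-- A space is a D-space if for every neighbourhood assignment there is a closed discrete set whose
neighbourhoods cover the space. -/
def IsDSpace (X : Type*) [TopologicalSpace X] : Prop :=
  ∀ N : X → Set X, (∀ x, IsOpen (N x) ∧ x ∈ N x) →
    ∃ D : Set X, IsClosed D ∧ DiscreteTopology D ∧ (⋃ d ∈ D, N d) = Set.univ

/-- A space is Menger if for every sequence of open covers one can choose finitely many members of
each so that the chosen sets cover the space. -/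
def IsMenger (Y : Type*) [TopologicalSpace Y] : Prop :=
  ∀ 𝒰 : ℕ → Set (Set Y), (∀ n, (∀ U ∈ 𝒰 n, IsOpen U) ∧ ⋃₀ 𝒰 n = Set.univ) →
    ∃ 𝒱 : ℕ → Set (Set Y), (∀ n, 𝒱 n ⊆ 𝒰 n ∧ (𝒱 n).Finite) ∧ (⋃ n, ⋃₀ 𝒱 n) = Set.univ

theorem isMenger_of_countable (Y : Type*) [TopologicalSpace Y] [Countable Y] : IsMenger Y := by
  classical
  intro 𝒰 h𝒰
  rcases isEmpty_or_nonempty Y with hY | hY
  · refine ⟨fun _ => ∅, fun n => ⟨Set.empty_subset _, Set.finite_empty⟩, ?_⟩
    ext y; exact (hY.false y).elim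
  obtain ⟨e, he⟩ := exists_surjective_nat Y
  have hex : ∀ n, ∃ U ∈ 𝒰 n, e n ∈ U := by
    intro n
    have : e n ∈ ⋃₀ 𝒰 n := by rw [(h𝒰 n).2]; exact Set.mem_univ _
    exact this
  choose U hU1 hU2 using hex
  refine ⟨fun n => {U n}, fun n => ⟨Set.singleton_subset_iff.2 (hU1 n), Set.finite_singleton _⟩, ?_⟩
  ext y
  simp only [Set.mem_iUnion, Set.sUnion_singleton, Set.mem_univ, iff_true]
  obtain ⟨n, rfl⟩ := he y
  exact ⟨n, hU2 n⟩

/-- basic neighbourhoods in the Cantor cube -/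
theorem exists_cond {W : Type} {U : Set (W × ℕ → Bool)} (hU : IsOpen U) {z : W × ℕ → Bool}
    (hz : z ∈ U) : ∃ b : Cond W, Sat z b ∧ ∀ w, Sat w b → w ∈ U := by
  classical
  obtain ⟨F, u, hu, hF⟩ := isOpen_pi_iff.1 hU z hz
  refine ⟨(F.filter (fun c => z c = true), F.filter (fun c => z c = false)), ⟨?_, ?_⟩, ?_⟩
  · intro c hc; exact (Finset.mem_filter.1 hc).2
  · intro c hc; exact (Finset.mem_filter.1 hc).2
  · intro w hw
    apply hF
    intro c hc
    have hwz : w c = z c := by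
      cases hzc : z c with
      | true => exact hw.1 c (Finset.mem_filter.2 ⟨hc, hzc⟩)
      | false => exact hw.2 c (Finset.mem_filter.2 ⟨hc, hzc⟩)
    rw [hwz]
    exact (hu c hc).2

theorem isOpen_coord {J : Type} (c : J) (v : Bool) : IsOpen {w : J → Bool | w c = v} := by
  have h : IsOpen ((fun w : J → Bool => w c) ⁻¹' ({v} : Set Bool)) :=
    (isOpen_discrete ({v} : Set Bool)).preimage (continuous_apply c)
  have h2 : ((fun w : J → Bool => w c) ⁻¹' ({v} : Set Bool)) = {w : J → Bool | w c = v} := by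
    ext w; simp
  rw [← h2]; exact h

theorem isOpen_coord' {J : Type} {X : Set (J → Bool)} (c : J) (v : Bool) :
    IsOpen {w : X | w.1 c = v} := by
  have h := (isOpen_coord c v).preimage (continuous_subtype_val (p := fun w => w ∈ X))
  exact h

theorem isOpen_sat {W : Type} (b : Cond W) : IsOpen {w : W × ℕ → Bool | Sat w b} := by
  have h1 : {w : W × ℕ → Bool | Sat w b} =
      (⋂ c ∈ b.1, {w : W × ℕ → Bool | w c = true}) ∩ (⋂ c ∈ b.2, {w : W × ℕ → Bool | w c = false}) := by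
    ext w
    simp only [Sat, Set.mem_ofPred_eq, Set.mem_inter_iff, Set.mem_iInter]
  rw [h1]
  refine IsOpen.inter ?_ ?_
  · exact isOpen_biInter_finset (fun c _ => isOpen_coord c true)
  · exact isOpen_biInter_finset (fun c _ => isOpen_coord c false)

section space

variable {W : Type} [LinearOrder W] [WellFoundedLT W] [OmegaOneLike W]

/-- The space attached to a family of rows. -/
abbrev Sp (x : W → ℕ → W × ℕ → Bool) : Type := Set.range (fun c : W × ℕ => x c.1 c.2)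

theorem sp_hl (S : W → W → Cond W) (D : W → Set (W × ℕ)) (x : W → ℕ → W × ℕ → Bool)
    (hx : ∀ l, Spec S D l x (x l))
    (hS : ∀ f : W → Cond W, ∀ h : W → W, ∀ β₀ : W,
      ∃ l : W, β₀ < l ∧ (∀ ξ < l, h ξ < l) ∧ ∀ ξ < l, S l ξ = f ξ) :
    HereditarilyLindelofSpace (Sp x) := by
  classical
  refine ⟨fun Y _ => ?_⟩
  refine isLindelof_of_countable_subcover (fun {ι} U hUo hUc => ?_)
  by_contra hcon
  push Not at hcon
  -- choose basic neighbourhoods
  have hch : ∀ y : Sp x, y ∈ Y → ∃ (i : ι) (b : Cond W), Sat y.1 b ∧ ∀ w : Sp x, Sat w.1 b → w ∈ U i := by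
    intro y hy
    obtain ⟨i, hi⟩ := Set.mem_iUnion.1 (hUc hy)
    obtain ⟨V, hV, hVU⟩ := isOpen_induced_iff.1 (hUo i)
    have hyV : y.1 ∈ V := by
      have : y ∈ Subtype.val ⁻¹' V := by rw [hVU]; exact hi
      exact this
    obtain ⟨b, hb1, hb2⟩ := exists_cond hV hyV
    refine ⟨i, b, hb1, fun w hw => ?_⟩
    have : w ∈ Subtype.val ⁻¹' V := hb2 w.1 hw
    rw [hVU] at this
    exact this
  have : Nonempty W := by
    by_contra hcon
    rw [not_nonempty_iff] at hcon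
    exact OmegaOneLike.unc (W := W) (Set.countable_univ)
  -- the recursive choice of a right separated sequence
  obtain ⟨a, ha⟩ := exists_rec (W := W) (α := (W × ℕ) × Cond W)
    (P := fun η a v => (∃ i : ι, ∀ w : Sp x, Sat w.1 v.2 → w ∈ U i) ∧ Sat (x v.1.1 v.1.2) v.2 ∧
      ∀ ξ < η, ¬ Sat (x v.1.1 v.1.2) (a ξ).2)
    (fun l a a' v h h' => ⟨h'.1, h'.2.1, fun ξ hξ => by rw [← h ξ hξ]; exact h'.2.2 ξ hξ⟩)
    (fun η a ha => by
      have hi : ∀ ξ : Set.Iio η, ∃ i : ι, ∀ w : Sp x, Sat w.1 (a ξ).2 → w ∈ U i := fun ξ => (ha ξ ξ.2).1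
      choose i hi using hi
      have hcount : (Set.range i).Countable := by
        have : Countable (Set.Iio η) := (OmegaOneLike.cIio η).to_subtype
        exact Set.countable_range i
      have hnc := hcon (Set.range i) hcount
      obtain ⟨y, hyY, hyn⟩ := Set.not_subset.1 hnc
      obtain ⟨j, b, hb1, hb2⟩ := hch y hyY
      obtain ⟨c, hc⟩ := y.2
      refine ⟨(c, b), ⟨j, hb2⟩, ?_, ?_⟩
      · have : x c.1 c.2 = y.1 := hc
        rw [this]; exact hb1
      · intro ξ hξ hsat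
        apply hyn
        have h1 : x c.1 c.2 = y.1 := hc
        rw [h1] at hsat
        exact Set.mem_iUnion₂.2 ⟨i ⟨ξ, hξ⟩, ⟨_, rfl⟩, hi ⟨ξ, hξ⟩ y hsat⟩)
  exact no_right_sep S D x hx hS (fun ξ => (a ξ).1) (fun ξ => (a ξ).2) (fun ξ => (ha ξ).2.1)
    (fun ξ η hξη => (ha η).2.2 ξ hξη)

theorem sp_closure (S : W → W → Cond W) (D : W → Set (W × ℕ)) (x : W → ℕ → W × ℕ → Bool)
    (hx : ∀ l, Spec S D l x (x l)) (A : Set (Sp x)) (hA : A.Countable) :
    (closure A).Countable := by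
  classical
  have hc : ∀ y : Sp x, ∃ c : W × ℕ, x c.1 c.2 = y.1 := fun y => y.2
  choose c hc using hc
  obtain ⟨l, hl⟩ := bdd_of_countable (hA.image (fun y => (c y).1))
  let B : Set (Sp x) := {y | ∃ m ≤ l, ∃ i, x m i = y.1}
  have hAB : A ⊆ B := fun y hy => ⟨(c y).1, (hl _ ⟨y, hy, rfl⟩).le, (c y).2, hc y⟩
  have hBc : B.Countable := by
    have h1 : ((fun y : Sp x => y.1) '' B).Countable := by
      have h2 : ((fun c : W × ℕ => x c.1 c.2) '' (Set.Iic l ×ˢ (Set.univ : Set ℕ))).Countable :=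
        ((cIic l).prod Set.countable_univ).image _
      refine h2.mono ?_
      rintro _ ⟨y, ⟨m, hm, i, hi⟩, rfl⟩
      exact ⟨(m, i), ⟨hm, Set.mem_univ _⟩, hi⟩
    exact Set.countable_of_injective_of_countable_image (Subtype.val_injective.injOn) h1
  have hBcl : IsClosed B := by
    rw [← isOpen_compl_iff, isOpen_iff_forall_mem_open]
    intro z hz
    -- z has a stage above l
    have hstage : l < (c z).1 := by
      by_contra h
      exact hz ⟨(c z).1, not_lt.1 h, (c z).2, hc z⟩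
    obtain ⟨n, hn⟩ := ((hx (c z).1).1 (c z).2).2.1 l hstage
    rw [hc z] at hn
    refine ⟨{w : Sp x | w.1 (l, n) = false}, ?_, ?_, hn⟩
    · rintro w hw ⟨m, hm, i, hi⟩
      have h1 := ((hx m).1 i).1 (l, n) hm
      rw [hi] at h1
      have h2 : w.1 (l, n) = false := hw
      rw [h1] at h2
      exact Bool.noConfusion h2
    · exact isOpen_coord' (l, n) false
  exact hBc.mono (closure_minimal hAB hBcl)

theorem sp_not_D (S : W → W → Cond W) (D : W → Set (W × ℕ)) (x : W → ℕ → W × ℕ → Bool)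
    (hx : ∀ l, Spec S D l x (x l))
    (hD : ∀ E : Set (W × ℕ), E.Countable → ∀ β : W, ∃ l, β < l ∧ D l = E)
    (hHL : HereditarilyLindelofSpace (Sp x)) : ¬ IsDSpace (Sp x) := by
  classical
  intro h
  have hc : ∀ y : Sp x, ∃ c : W × ℕ, x c.1 c.2 = y.1 := fun y => y.2
  choose c hc using hc
  obtain ⟨Δ, hcl, hdis, hcov⟩ := h (fun y => {z : Sp x | z.1 (c y) = true}) (by
    intro y
    refine ⟨?_, ?_⟩
    · exact isOpen_coord' (c y) true
    · have := ((hx (c y).1).1 (c y).2).1 (c y) le_rfl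
      rw [hc y] at this
      exact this)
  have hΔc : Δ.Countable := by
    have h1 : IsLindelof Δ := HereditarilyLindelofSpace.isLindelof Δ
    exact h1.countable hdis
  have hEc : (c '' Δ).Countable := hΔc.image c
  obtain ⟨β, hβ⟩ := bdd_of_countable (hEc.image Prod.fst)
  obtain ⟨l, hl, hDl⟩ := hD (c '' Δ) hEc β
  have hEl : ∀ e ∈ c '' Δ, e.1 < l := fun e he => lt_trans (hβ _ ⟨e, he, rfl⟩) hl
  have hkill := (hx l).2.2 (by
    intro μ hμ i
    let z : Sp x := ⟨x μ i, ⟨(μ, i), rfl⟩⟩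
    -- an open neighbourhood of z meeting Δ in at most z
    obtain ⟨V, hV, hzV, hVΔ⟩ : ∃ V : Set (Sp x), IsOpen V ∧ z ∈ V ∧ ∀ y ∈ V, y ∈ Δ → y = z := by
      by_cases hz : z ∈ Δ
      · obtain ⟨V, hV, hV2⟩ := isOpen_induced_iff.1 (isOpen_discrete ({⟨z, hz⟩} : Set Δ))
        refine ⟨V, hV, ?_, ?_⟩
        · have : (⟨z, hz⟩ : Δ) ∈ (Subtype.val ⁻¹' V : Set Δ) := by rw [hV2]; rfl
          exact this
        · intro y hy hyΔ
          have : (⟨y, hyΔ⟩ : Δ) ∈ (Subtype.val ⁻¹' V : Set Δ) := hy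
          rw [hV2] at this
          exact congrArg Subtype.val (Set.mem_singleton_iff.1 this)
      · exact ⟨Δᶜ, hcl.isOpen_compl, hz, fun y hy hyΔ => absurd hyΔ hy⟩
    obtain ⟨V', hV', hVV'⟩ := isOpen_induced_iff.1 hV
    have hzV' : z.1 ∈ V' := by
      have : z ∈ Subtype.val ⁻¹' V' := by rw [hVV']; exact hzV
      exact this
    obtain ⟨b, hb1, hb2⟩ := exists_cond hV' hzV'
    refine ⟨b, hb1, ?_⟩
    refine (Set.finite_singleton (c z)).subset ?_
    rintro e ⟨⟨he, _⟩, hsat⟩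
    rw [hDl] at he
    obtain ⟨y, hy, rfl⟩ := he
    rw [hc y] at hsat
    have hyV : y ∈ V := by
      have : y ∈ Subtype.val ⁻¹' V' := hb2 _ hsat
      rw [hVV'] at this
      exact this
    rw [hVΔ y hyV hy]
    rfl)
  -- the killer point
  let κ : Sp x := ⟨x l 0, ⟨(l, 0), rfl⟩⟩
  have hκ : κ ∈ (⋃ d ∈ Δ, {z : Sp x | z.1 (c d) = true}) := by rw [hcov]; exact Set.mem_univ _
  obtain ⟨d, hd, hκd⟩ := Set.mem_iUnion₂.1 hκ
  have h1 := hkill (c d) (by rw [hDl]; exact ⟨d, hd, rfl⟩) (hEl _ ⟨d, hd, rfl⟩)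
  have h2 : x l 0 (c d) = true := hκd
  rw [h1] at h2
  exact Bool.noConfusion h2

end space

end DS55
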